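import Pool.Agent.H82.Bil.Cover

set_option autoImplicit false

/-!
# An almost everywhere invariant function has an invariant version
-/

namespace H98.ER

open MeasureTheory Set Metric Filter Topology H82.Bil

open scoped ComplexConjugate ENNReal

variable {T : Table}

/-- a step is a free motion or a bounce -/
lemma step_fb {w : List T.ι} {a b : ℂ × Dir} {t : ℝ} (h : Step T w a t b) :
    Free T a t b ∨ Bounce T a t b := by
  cases h with
  | fl x θ t ht h => exact Or.inl ⟨ht, h, rfl⟩
  | bo x θ t ht i p ρ s N hx hxU hs hy hys =>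
    right
    obtain ⟨hball, q, hq0, hqt, hq, hlt, hgt⟩ := cross ht hx hs hy hys
    have hqb := hball q hq0.le hqt.le
    have hside := N.line _ hqb hq
    have hrefl : ∀ r : ℝ, T.r i (x + r * e θ) =
        x + q * e θ + ((r - q : ℝ) : ℂ) * e (T.rd i θ) := by
      intro r
      have h1 : x + r * e θ = (x + q * e θ) + ((r - q : ℝ) : ℂ) * e θ := by push_cast; ring
      rw [h1, T.r_add_e, T.r_fix i hq]
    refine ⟨i, q, hq0, hqt, ?_, hside.1, hside.2, ?_, ?_⟩
    · intro r h0 h1
      exact N.half hx hs hxU _ (hball r h0 (h1.le.trans hqt.le)) (hlt r h1)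
    · intro r h1 h2
      simp only
      rw [← hrefl]
      refine N.half hx hs hxU _ (N.r_mem (hball r (hq0.le.trans h1.le) h2)) ?_
      rw [T.h_r]
      have := hgt r h1
      linarith
    · simp only
      rw [← hrefl]

/-- a free motion or a bounce is a chain of steps -/
lemma fb_reach {a b : ℂ × Dir} {t : ℝ} (h : Free T a t b ∨ Bounce T a t b) :
    ∃ w n, Reach T w n a t b := by
  rcases h with ⟨ht, h, rfl⟩ | ⟨i, s, hs0, hst, hbef, hseg, hV, haft, rfl⟩
  · exact ⟨[], 1, (Step.fl a.1 a.2 t ht h).reach⟩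
  · obtain ⟨x, θ⟩ := a
    simp only at *
    obtain ⟨ρ, N⟩ := T.exists_nice i hseg hV
    have hρ := N.pos
    have h0 : T.h i (x + s * e θ) = 0 := T.h_side i hseg
    obtain ⟨r₁, hr1, hr1s, hr1ρ⟩ : ∃ r₁ : ℝ, 0 < r₁ ∧ r₁ < s ∧ s - r₁ < ρ := by
      refine ⟨max (s / 2) (s - ρ / 2), lt_max_of_lt_left (by linarith), ?_, ?_⟩
      · exact max_lt (by linarith) (by linarith)
      · have := le_max_right (s / 2) (s - ρ / 2)
        linarith
    obtain ⟨r₂, hr2, hr2t, hr2ρ⟩ : ∃ r₂ : ℝ, s < r₂ ∧ r₂ < t ∧ r₂ - s < ρ := by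
      refine ⟨min ((s + t) / 2) (s + ρ / 2), ?_, ?_, ?_⟩
      · exact lt_min (by linarith) (by linarith)
      · exact lt_of_le_of_lt (min_le_left _ _) (by linarith)
      · have := min_le_right ((s + t) / 2) (s + ρ / 2)
        linarith
    have hball : ∀ r : ℝ, |r - s| < ρ → x + r * e θ ∈ ball (x + s * e θ) ρ := by
      intro r hr
      rw [mem_ball_iff_norm]
      have h2 : x + r * e θ - (x + s * e θ) = ((r - s : ℝ) : ℂ) * e θ := by push_cast; ring
      rw [h2, norm_mul, norm_e, mul_one, Complex.norm_real, Real.norm_eq_abs]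
      exact hr
    have hb1 := hball r₁ (by rw [abs_lt]; constructor <;> linarith)
    have hb2 := hball r₂ (by rw [abs_lt]; constructor <;> linarith)
    have hU1 := hbef r₁ hr1.le hr1s
    have hne : T.h i (x + r₁ * e θ) ≠ 0 := fun h => N.notU hb1 h hU1
    have hlin : ∀ r : ℝ, T.h i (x + r * e θ) = (r - s) * T.h' i (e θ) := by
      intro r
      have h2 : x + r * e θ = (x + s * e θ) + ((r - s : ℝ) : ℂ) * e θ := by push_cast; ring
      rw [h2, T.h_add, h0, zero_add]
    have hB : T.h' i (e θ) ≠ 0 := by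
      intro hB
      apply hne
      rw [hlin, hB, mul_zero]
    have hend : ∀ r : ℝ, x + ((r₁ : ℝ) : ℂ) * e θ + ((r - r₁ : ℝ) : ℂ) * e θ = x + r * e θ := by
      intro r; push_cast; ring
    have hstep2 := Step.bo (T := T) (x + r₁ * e θ) θ (r₂ - r₁) (by linarith) i (x + s * e θ) ρ
      (-(T.h' i (e θ))) N hb1 hU1 (by
        rw [hlin]
        have : 0 < (s - r₁) * (T.h' i (e θ)) ^ 2 :=
          mul_pos (by linarith) (by positivity)
        nlinarith) (by rw [hend]; exact hb2) (by
        rw [hend, hlin]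
        have : 0 < (r₂ - s) * (T.h' i (e θ)) ^ 2 :=
          mul_pos (by linarith) (by positivity)
        nlinarith)
    rw [hend] at hstep2
    have hrefl : ∀ r : ℝ, T.r i (x + r * e θ) =
        x + s * e θ + ((r - s : ℝ) : ℂ) * e (T.rd i θ) := by
      intro r
      have h1 : x + r * e θ = (x + s * e θ) + ((r - s : ℝ) : ℂ) * e θ := by push_cast; ring
      rw [h1, T.r_add_e, T.r_fix i h0]
    have hstep1 := Step.fl (T := T) x θ r₁ hr1 (fun r h0 h1 => hbef r h0 (by linarith))
    have hstep3 := Step.fl (T := T) (T.r i (x + r₂ * e θ)) (T.rd i θ) (t - r₂) (by linarith) (by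
      intro r hr0 hr1
      rw [hrefl]
      have h3 := haft (r₂ + r) (by linarith) (by linarith)
      have h4 : x + s * e θ + ((r₂ - s : ℝ) : ℂ) * e (T.rd i θ) + r * e (T.rd i θ) =
          x + s * e θ + ((r₂ + r - s : ℝ) : ℂ) * e (T.rd i θ) := by push_cast; ring
      rw [h4]
      exact h3)
    have hr := (hstep1.reach.trans hstep2.reach).trans hstep3.reach
    have e1 : r₁ + (r₂ - r₁) + (t - r₂) = t := by ring
    rw [e1] at hr
    refine ⟨[] ++ [i] ++ [], 1 + 1 + 1, ?_⟩
    · have h5 : (x + s * e θ + ((t - s : ℝ) : ℂ) * e (T.rd i θ), T.rd i θ) =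
          (T.r i (x + r₂ * e θ) + ((t - r₂ : ℝ) : ℂ) * e (T.rd i θ), T.rd i θ) := by
        rw [hrefl]
        refine Prod.ext ?_ rfl
        simp only
        push_cast; ring
      rw [h5]
      exact hr

/-- almost everywhere invariance for each time -/
def Ae (T : Table) (f : ℂ × Dir → ℝ) : Prop :=
  ∀ t : ℝ, 0 < t → ∀ᵐ a : ℂ × Dir, ∀ b : ℂ × Dir, Free T a t b ∨ Bounce T a t b → f b = f a

/-- local invariance along a chain -/
lemma local_inv {f : ℂ × Dir → ℝ} (hf : Ae T f) {w : List T.ι} {n : ℕ} {a b : ℂ × Dir} {t : ℝ}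
    (h : Reach T w n a t b) : ∃ u ∈ 𝓝 a, ∀ᵐ z : ℂ × Dir, z ∈ u → f (Phi T w z t) = f z := by
  induction h with
  | nil a =>
    refine ⟨univ, univ_mem, Eventually.of_forall fun z _ => ?_⟩
    simp [Phi]
  | @cons w w' n a b c s t h h' ih =>
    obtain ⟨u', hu', hae'⟩ := ih
    have h1 : {z : ℂ × Dir | Step T w z s (Phi T w z s)} ∈ 𝓝 a := by
      have hc : Tendsto (fun z : ℂ × Dir => (z, s)) (𝓝 a) (𝓝 (a, s)) := by
        have : Continuous (fun z : ℂ × Dir => (z, s)) := by fun_prop
        exact this.tendsto a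
      exact hc.eventually h.open_
    have h2 : {z : ℂ × Dir | Phi T w z s ∈ u'} ∈ 𝓝 a := by
      have hc : Continuous (fun z : ℂ × Dir => Phi T w z s) :=
        (continuous_Phi w).comp (by fun_prop : Continuous (fun z : ℂ × Dir => (z, s)))
      have h3 : u' ∈ 𝓝 (Phi T w a s) := by rw [← h.eq']; exact hu'
      exact hc.continuousAt.preimage_mem_nhds h3
    refine ⟨_, inter_mem h1 h2, ?_⟩
    have h4 := hf s h.pos
    have h5 : ∀ᵐ z : ℂ × Dir, Phi T w z s ∈ u' → f (Phi T w' (Phi T w z s) t) =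
        f (Phi T w z s) := by
      have hq := (mp_Phi (T := T) w s).quasiMeasurePreserving
      have := hq.ae hae'
      simp only [PhiH_apply] at this
      exact this
    filter_upwards [h4, h5] with z hz4 hz5
    rintro ⟨hz1, hz2⟩
    rw [← Phi_append, hz5 hz2, hz4 _ (step_fb hz1)]

/-- for a fixed time, invariance along all chains for almost all initial states -/
lemma ae_reach {f : ℂ × Dir → ℝ} (hf : Ae T f) (t : ℝ) :
    ∀ᵐ a : ℂ × Dir, ∀ (w : List T.ι) (n : ℕ) (b : ℂ × Dir), Reach T w n a t b → f b = f a := by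
  have := T.fin
  have : Countable T.ι := Finite.to_countable
  rw [ae_all_iff]
  intro w
  rw [ae_all_iff]
  intro n
  have h1 : (volume : Measure (ℂ × Dir))
      {a | Reach T w n a t (Phi T w a t) ∧ f (Phi T w a t) ≠ f a} = 0 := by
    apply measure_null_of_locally_null
    rintro a ⟨ha1, ha2⟩
    obtain ⟨u, hu, hae⟩ := local_inv hf ha1
    refine ⟨u ∩ {a | Reach T w n a t (Phi T w a t) ∧ f (Phi T w a t) ≠ f a},
      inter_mem (mem_nhdsWithin_of_mem_nhds hu) self_mem_nhdsWithin, ?_⟩
    refine measure_mono_null ?_ hae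
    rintro z ⟨hz1, hz2, hz3⟩ hz4
    exact hz3 (hz4 hz1)
  filter_upwards [compl_mem_ae_iff.2 h1] with a ha b hb
  have hb' := hb.eq'
  subst hb'
  by_contra hne
  exact ha ⟨hb, hne⟩

/-- reversal -/
lemma ae_rev {f : ℂ × Dir → ℝ} (hf : Ae T f) (t : ℝ) :
    ∀ᵐ a : ℂ × Dir, ∀ (w : List T.ι) (n : ℕ) (b : ℂ × Dir), Reach T w n a t b →
      f (rv b) = f (rv a) := by
  have := T.fin
  have : Countable T.ι := Finite.to_countable
  rw [ae_all_iff]
  intro w
  have hq := mp_rv.quasiMeasurePreserving.comp (mp_Phi (T := T) w t).quasiMeasurePreserving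
  have h1 := hq.ae (ae_reach hf t)
  filter_upwards [h1] with a ha n b hb
  obtain ⟨w', hw'⟩ := hb.rev
  have hb' := hb.eq'
  subst hb'
  have := ha w' n (rv a) (by
    simp only [Function.comp, PhiH_apply]
    exact hw')
  simp only [Function.comp, PhiH_apply] at this
  exact this.symm

end H98.ER
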