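import Pool.Agent.H98.ER.VerA

set_option autoImplicit false

/-!
# The essential range of a function along the whole orbit
-/

namespace H98.ER

open MeasureTheory Set Metric Filter Topology H82.Bil

open scoped ComplexConjugate ENNReal

variable {T : Table}

/-- the states and times which are joined by a chain with the word `w` -/
def RS (T : Table) (w : List T.ι) : Set ((ℂ × Dir) × ℝ) :=
  {z | ∃ n, Reach T w (n + 1) z.1 z.2 (Phi T w z.1 z.2)}

lemma isOpen_RS (w : List T.ι) : IsOpen (RS T w) := by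
  rw [isOpen_iff_mem_nhds]
  rintro ⟨a, t⟩ ⟨n, h⟩
  filter_upwards [h.open_] with z hz
  exact ⟨n, hz⟩

/-- times at which `f` is larger than `c` on the forward orbit -/
def O (T : Table) (f : ℂ × Dir → ℝ) (c : ℝ) (a : ℂ × Dir) : Set ℝ :=
  {s | ∃ (w : List T.ι) (n : ℕ) (b : ℂ × Dir), Reach T w (n + 1) a s b ∧ c < f b}

lemma O_eq (f : ℂ × Dir → ℝ) (c : ℝ) (a : ℂ × Dir) :
    O T f c a = ⋃ w : List T.ι, Prod.mk a ⁻¹' {z | z ∈ RS T w ∧ c < f (Phi T w z.1 z.2)} := by
  ext s
  simp only [O, mem_ofPred_eq, mem_iUnion, mem_preimage, RS]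
  constructor
  · rintro ⟨w, n, b, h, hc⟩
    have := h.eq'
    subst this
    exact ⟨w, ⟨n, h⟩, hc⟩
  · rintro ⟨w, ⟨n, h⟩, hc⟩
    exact ⟨w, n, _, h, hc⟩

lemma O_meas (f : ℂ × Dir → ℝ) (hf : Measurable f) (c : ℝ) :
    MeasurableSet {a | volume (O T f c a) = 0} := by
  have := T.fin
  have : Countable T.ι := Finite.to_countable
  have h1 : {a | volume (O T f c a) = 0} = ⋂ w : List T.ι,
      {a | volume (Prod.mk a ⁻¹' {z : (ℂ × Dir) × ℝ | z ∈ RS T w ∧ c < f (Phi T w z.1 z.2)}) = 0} := by
    ext a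
    simp only [mem_ofPred_eq, mem_iInter]
    rw [O_eq, measure_iUnion_null_iff]
  rw [h1]
  refine MeasurableSet.iInter fun w => ?_
  have h2 : MeasurableSet {z : (ℂ × Dir) × ℝ | z ∈ RS T w ∧ c < f (Phi T w z.1 z.2)} := by
    have h3 : Measurable fun z : (ℂ × Dir) × ℝ => f (Phi T w z.1 z.2) :=
      hf.comp (continuous_Phi w).measurable
    exact (isOpen_RS w).measurableSet.inter (measurableSet_lt measurable_const h3)
  exact (measurable_measure_prodMk_left h2) (measurableSet_singleton 0)

/-- the essential supremum of `f` over the orbit is larger than `c` (roughly) -/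
def P (T : Table) (f : ℂ × Dir → ℝ) (c : ℝ) (a : ℂ × Dir) : Prop :=
  volume (O T f c a) ≠ 0 ∨ volume (O T (f ∘ rv) c (rv a)) ≠ 0

lemma P_meas (f : ℂ × Dir → ℝ) (hf : Measurable f) (c : ℝ) : MeasurableSet {a | P T f c a} := by
  have h1 := (O_meas (T := T) f hf c).compl
  have h2 := (O_meas (T := T) (f ∘ rv) (hf.comp continuous_rv.measurable) c).compl.preimage
    continuous_rv.measurable
  exact h1.union h2

lemma comp_rv_rv (f : ℂ × Dir → ℝ) : (f ∘ rv) ∘ rv = f := by
  ext a; simp [rv_rv]

lemma P_rv (f : ℂ × Dir → ℝ) (c : ℝ) (a : ℂ × Dir) : P T (f ∘ rv) c (rv a) ↔ P T f c a := by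
  unfold P
  rw [comp_rv_rv, rv_rv]
  exact or_comm

lemma P_back {f : ℂ × Dir → ℝ} {c : ℝ} {w : List T.ι} {n : ℕ} {a b : ℂ × Dir} {t : ℝ}
    (h : Reach T w n a t b) (hb : P T f c b) : P T f c a := by
  rcases hb with hb | hb
  · left
    intro h0
    apply hb
    have h1 : O T f c b ⊆ (fun s => t + s) ⁻¹' O T f c a := by
      rintro s ⟨w', m, b', h', hc⟩
      refine ⟨w ++ w', n + m, b', ?_, hc⟩
      exact h.trans h'
    refine measure_mono_null h1 ?_
    rw [measure_preimage_add]
    exact h0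
  · by_contra hn
    unfold P at hn
    push Not at hn
    obtain ⟨hn1, hn2⟩ := hn
    apply hb
    obtain ⟨w₂, h₂⟩ := h.rev
    have h1 : O T (f ∘ rv) c (rv b) ⊆ {t} ∪ ((fun s => s - t) ⁻¹' O T (f ∘ rv) c (rv a) ∪
        (fun s => t - s) ⁻¹' O T f c a) := by
      rintro s ⟨w', m, b', h', hc⟩
      rcases lt_trichotomy s t with hst | hst | hst
      · right; right
        obtain ⟨w₃, m₃, h₃⟩ := h'.pfx h₂ hst.le
        obtain ⟨w₄, h₄⟩ := h₃.rev
        rw [rv_rv] at h₄
        cases m₃ with
        | zero =>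
          exfalso
          have : t - s = 0 := by
            generalize t - s = r at h₃
            cases h₃
            rfl
          linarith
        | succ m₃ => exact ⟨w₄, m₃, rv b', h₄, hc⟩
      · left; exact hst
      · right; left
        obtain ⟨w₃, m₃, h₃⟩ := h₂.pfx h' hst.le
        cases m₃ with
        | zero =>
          exfalso
          have : s - t = 0 := by
            generalize s - t = r at h₃
            cases h₃
            rfl
          linarith
        | succ m₃ => exact ⟨w₃, m₃, b', h₃, hc⟩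
    refine measure_mono_null h1 ?_
    have e1 : volume ((fun s => s - t) ⁻¹' O T (f ∘ rv) c (rv a)) = 0 := by
      have := measure_preimage_add_right (volume : Measure ℝ) (-t) (O T (f ∘ rv) c (rv a))
      simp only [← sub_eq_add_neg] at this
      rw [this]
      exact hn2
    have e2 : volume ((fun s => t - s) ⁻¹' O T f c a) = 0 := by
      have hm : MeasurePreserving (fun s : ℝ => t - s) := by
        have h5 : (fun s : ℝ => t - s) = (fun s => t + s) ∘ (fun s => -s) := by
          ext s; simp [sub_eq_add_neg]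
        rw [h5]
        exact (measurePreserving_add_left (volume : Measure ℝ) t).comp
          (Measure.measurePreserving_neg (volume : Measure ℝ))
      exact hm.quasiMeasurePreserving.preimage_null hn1
    exact measure_union_null (by simp) (measure_union_null e1 e2)

lemma P_iff {f : ℂ × Dir → ℝ} {c : ℝ} {w : List T.ι} {n : ℕ} {a b : ℂ × Dir} {t : ℝ}
    (h : Reach T w n a t b) : P T f c b ↔ P T f c a := by
  constructor
  · exact P_back h
  · intro ha
    obtain ⟨w₂, h₂⟩ := h.rev
    rw [← P_rv]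
    exact P_back h₂ ((P_rv f c a).2 ha)

/-- `f` is constant almost everywhere on the forward orbit -/
def Con (T : Table) (f : ℂ × Dir → ℝ) (a : ℂ × Dir) : Prop :=
  ∀ᵐ s : ℝ, ∀ (w : List T.ι) (n : ℕ) (b : ℂ × Dir), Reach T w (n + 1) a s b → f b = f a

lemma ae_con {f : ℂ × Dir → ℝ} (hm : Measurable f)
    (hf : ∀ t : ℝ, ∀ᵐ a : ℂ × Dir, ∀ (w : List T.ι) (n : ℕ) (b : ℂ × Dir),
      Reach T w n a t b → f b = f a) : ∀ᵐ a : ℂ × Dir, Con T f a := by
  have := T.fin
  have : Countable T.ι := Finite.to_countable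
  have h1 : MeasurableSet {z : (ℂ × Dir) × ℝ | ∀ w : List T.ι, z ∈ RS T w →
      f (Phi T w z.1 z.2) = f z.1} := by
    have h2 : {z : (ℂ × Dir) × ℝ | ∀ w : List T.ι, z ∈ RS T w →
        f (Phi T w z.1 z.2) = f z.1} = ⋂ w : List T.ι,
          ((RS T w)ᶜ ∪ {z : (ℂ × Dir) × ℝ | f (Phi T w z.1 z.2) = f z.1}) := by
      ext z
      simp only [mem_ofPred_eq, mem_iInter, mem_union, mem_compl_iff, imp_iff_not_or]
    rw [h2]
    refine MeasurableSet.iInter fun w => ?_
    refine (isOpen_RS w).measurableSet.compl.union ?_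
    exact measurableSet_eq_fun (hm.comp (continuous_Phi w).measurable) (hm.comp measurable_fst)
  have h3 : ∀ᵐ s : ℝ, ∀ᵐ a : ℂ × Dir, ∀ w : List T.ι, (a, s) ∈ RS T w →
      f (Phi T w a s) = f a := by
    refine Eventually.of_forall fun s => ?_
    filter_upwards [hf s] with a ha w hw
    obtain ⟨n, hn⟩ := hw
    exact ha w (n + 1) _ hn
  have h4 := (Measure.ae_ae_comm (μ := (volume : Measure (ℂ × Dir))) (ν := (volume : Measure ℝ))
    (p := fun a s => ∀ w : List T.ι, (a, s) ∈ RS T w → f (Phi T w a s) = f a) h1).2 h3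
  filter_upwards [h4] with a ha
  filter_upwards [ha] with s hs w n b hb
  have := hb.eq'
  subst this
  exact hs w ⟨n, hb⟩

/-- for good states the number `P` is known -/
lemma P_good {f : ℂ × Dir → ℝ} {a : ℂ × Dir} (haU : a.1 ∈ T.U) (h1 : Con T f a)
    (h2 : Con T (f ∘ rv) (rv a)) (c : ℝ) : P T f c a ↔ c < f a := by
  constructor
  · rintro (hP | hP)
    · by_contra hn
      apply hP
      have : ∀ᵐ s : ℝ, s ∉ O T f c a := by
        filter_upwards [h1] with s hs
        rintro ⟨w, n, b, hb, hc⟩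
        rw [hs w n b hb] at hc
        exact hn hc
      exact compl_mem_ae_iff.1 this
    · by_contra hn
      apply hP
      have : ∀ᵐ s : ℝ, s ∉ O T (f ∘ rv) c (rv a) := by
        filter_upwards [h2] with s hs
        rintro ⟨w, n, b, hb, hc⟩
        rw [hs w n b hb] at hc
        simp only [Function.comp, rv_rv] at hc
        exact hn hc
      exact compl_mem_ae_iff.1 this
  · intro hc
    left
    intro h0
    obtain ⟨δ, hδ, hball⟩ := Metric.isOpen_iff.1 T.isOpen a.1 haU
    have h3 : ∀ᵐ s : ℝ, s ∉ O T f c a := compl_mem_ae_iff.2 h0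
    have h4 : ∀ᵐ s : ℝ, s ∉ Ioo (0 : ℝ) δ := by
      filter_upwards [h1, h3] with s hs hs3 hs4
      apply hs3
      have hstep := Step.fl (T := T) a.1 a.2 s hs4.1 (by
        intro r hr0 hr1
        apply hball
        rw [mem_ball_iff_norm, add_sub_cancel_left, norm_mul, norm_e, mul_one, Complex.norm_real,
          Real.norm_eq_abs, abs_of_nonneg hr0]
        exact lt_of_le_of_lt hr1 hs4.2)
      refine ⟨[], 0, _, hstep.reach, ?_⟩
      rw [hs _ 0 _ hstep.reach]
      exact hc
    have h5 : volume (Ioo (0 : ℝ) δ) = 0 := compl_mem_ae_iff.1 h4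
    rw [Real.volume_Ioo, sub_zero] at h5
    have := ENNReal.ofReal_pos.2 hδ
    exact this.ne' h5

end H98.ER
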